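import Pool.Agent.Lib.MP_8a71fe_gt.Defs

/-!
The Reeb flow, and non-degeneracy of closed Reeb orbits and of Reeb chords.
-/

open scoped Manifold ContDiff

namespace Pool.Agent.Lib.MP_8a71fe_gt.ND

variable {V : Type} [NormedAddCommGroup V] [NormedSpace ℝ V]
  {M : Type} [TopologicalSpace M] [ChartedSpace V M]

/-- `φ` is the flow of the vector field `R`: every `φ t` is smooth, `φ 0` is the identity and
`t ↦ φ t x` is an integral curve of `R` on the whole line. -/
def IsFlowOf (R : (x : M) → TangentSpace 𝓘(ℝ, V) x) (φ : ℝ → M → M) : Prop :=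
  (∀ t, ContMDiff 𝓘(ℝ, V) 𝓘(ℝ, V) ∞ (φ t)) ∧
    ∀ x, φ 0 x = x ∧ IsMIntegralCurve (fun t => φ t x) R

/-- The differential of a self-map of `M`, as a self-map of the tangent bundle. -/
noncomputable def diffMap (V : Type) [NormedAddCommGroup V] [NormedSpace ℝ V] [ChartedSpace V M]
    (f : M → M) (p : TangentBundle 𝓘(ℝ, V) M) : TangentBundle 𝓘(ℝ, V) M :=
  tangentMap 𝓘(ℝ, V) 𝓘(ℝ, V) f p

/-- Every closed orbit is non-degenerate: for every `T > 0`, a tangent vector in `ker α` that is
fixed (base point included) by the differential of `φ T` is zero. -/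
def OrbitsNondegenerate (α : OneForm V M) (φ : ℝ → M → M) : Prop :=
  ∀ T : ℝ, 0 < T → ∀ p : TangentBundle 𝓘(ℝ, V) M, evalForm α p.proj p.snd = 0 →
    diffMap V (φ T) p = p → p.snd = 0

/-- Every chord is non-degenerate: for every `T > 0`, a tangent vector fixed by the differential
of `ρ` (that is, tangent to the fixed point set) whose image under the differential of `φ T` is
again fixed by the differential of `ρ` is zero. -/
def ChordsNondegenerate (V : Type) [NormedAddCommGroup V] [NormedSpace ℝ V] [ChartedSpace V M]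
    (ρ : M → M) (φ : ℝ → M → M) : Prop :=
  ∀ T : ℝ, 0 < T → ∀ p : TangentBundle 𝓘(ℝ, V) M, diffMap V ρ p = p →
    diffMap V ρ (diffMap V (φ T) p) = diffMap V (φ T) p → p.snd = 0

/-- There is a closed connected real contact manifold modelled on `V`, with fixed point set
connected if `4 ≤ k`, all of whose closed Reeb orbits and Reeb chords are non-degenerate, with
exactly `k` geometrically distinct symmetric periodic Reeb orbits. -/
def ExistsNondegenerate (V : Type) [NormedAddCommGroup V] [NormedSpace ℝ V] (k : ℕ) : Prop :=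
  ∃ (M : Type) (_ : TopologicalSpace M) (_ : ChartedSpace V M) (_ : IsManifold 𝓘(ℝ, V) ∞ M)
    (_ : T2Space M) (_ : CompactSpace M) (_ : ConnectedSpace M)
    (α : OneForm V M) (R : (x : M) → TangentSpace 𝓘(ℝ, V) x) (ρ : M → M) (φ : ℝ → M → M),
    IsContactForm α ∧ IsReebField α R ∧ IsAntiContactInvolution α ρ ∧ (∃ x, ρ x = x) ∧
      (4 ≤ k → IsConnected {x | ρ x = x}) ∧ IsFlowOf R φ ∧ OrbitsNondegenerate α φ ∧
      ChordsNondegenerate V ρ φ ∧ (symmetricOrbits R ρ).encard = k

end Pool.Agent.Lib.MP_8a71fe_gt.ND
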