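import Pool.Agent.Lib.MP_8a71fe_gt.Conn

/-!
Linear algebra for non-degeneracy: the linear flow as a linear map, and the vectors it fixes.
-/

open scoped ComplexConjugate Topology
open Set Function Complex

namespace Pool.Agent.Lib.MP_8a71fe_gt.ND

variable {ι : Type} [Fintype ι]

/-- The time-`t` map of the linear flow as a continuous linear map. -/
noncomputable def flowL (a : ι → ℝ) (t : ℝ) : (ι → ℂ) →L[ℝ] (ι → ℂ) :=
  ContinuousLinearMap.pi fun i =>
    (ContinuousLinearMap.mul ℝ ℂ (exp ((a i * t : ℝ) * I))).comp (ContinuousLinearMap.proj i)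

omit [Fintype ι] in
lemma flowL_apply (a : ι → ℝ) (t : ℝ) (w : ι → ℂ) : flowL a t w = flow a t w := rfl

lemma flow_mem_link {s : ι → ι} {a : ι → ℝ} (ha : ∀ i, a i + a (s i) = 2) {w : ι → ℂ}
    (hw : w ∈ link s a) (t : ℝ) : flow a t w ∈ link s a := by
  have hw' : bil s a w w = (0, 1) := hw
  have h1 : ∑ i, w (s i) * w i = 0 := congrArg Prod.fst hw'
  have h2 : (bil s a w w).2 = 1 := congrArg Prod.snd hw'
  change bil s a (flow a t w) (flow a t w) = (0, 1)
  ext
  · change ∑ i, flow a t w (s i) * flow a t w i = 0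
    have : ∑ i, flow a t w (s i) * flow a t w i =
        exp ((2 * t : ℝ) * I) * ∑ i, w (s i) * w i := by
      rw [Finset.mul_sum]
      apply Finset.sum_congr rfl
      intro i _
      have e : exp ((a (s i) * t : ℝ) * I) * exp ((a i * t : ℝ) * I) = exp ((2 * t : ℝ) * I) := by
        rw [← exp_add, ← ha i]
        congr 1
        push_cast
        ring
      simp only [flow]
      rw [← e]
      ring
    rw [this, h1, mul_zero]
  · change (bil s a (flow a t w) (flow a t w)).2 = 1
    rw [← h2, bil_self_snd, bil_self_snd]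
    apply Finset.sum_congr rfl
    intro i _
    simp only [flow, map_mul, normSq_eq_norm_sq (exp _), norm_exp_ofReal_mul_I]
    ring

omit [Fintype ι] in
lemma flow_zero (a : ι → ℝ) (w : ι → ℂ) : flow a 0 w = w := by
  ext i
  simp [flow]

omit [Fintype ι] in
lemma sin_eq_zero_of_fixed {a : ι → ℝ} {T : ℝ} {w : ι → ℂ} (h : flow a T w = w) {i : ι}
    (hi : w i ≠ 0) : Real.sin (a i * T) = 0 := by
  have h1 : exp ((a i * T : ℝ) * I) * w i = w i := congrFun h i
  have h2 : exp ((a i * T : ℝ) * I) = 1 := by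
    apply mul_right_cancel₀ hi
    rw [h1, one_mul]
  have h3 := congrArg Complex.im h2
  rwa [exp_ofReal_mul_I_im, one_im] at h3

lemma exists_ne_zero {s : ι → ι} {a : ι → ℝ} {w : ι → ℂ} (hw : w ∈ link s a) : ∃ j, w j ≠ 0 := by
  by_contra h
  push Not at h
  have h3 : w = 0 := funext h
  have hw' : bil s a w w = (0, 1) := hw
  rw [h3] at hw'
  simpa using congrArg Prod.snd hw'

/-- A vector supported on the axis of the base point, tangent to the ellipsoid, with real
Hermitian product, vanishes. -/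
lemma eq_zero_of_axis {s : ι → ι} {a : ι → ℝ} {j : ι} (ha : a j ≠ 0) {w u : ι → ℂ} (hj : w j ≠ 0)
    (hu : ∀ i ≠ j, u i = 0) (h1 : (bil s a w u).2 = 0) (h2 : (conj (w j) * u j).im = 0) :
    u = 0 := by
  have h3 : (bil s a w u).2 = a j * (conj (w j) * u j).re := by
    rw [bil_apply]
    apply Finset.sum_eq_single j
    · intro i _ hi
      simp [hu i hi]
    · simp
  rw [h3] at h1
  have h4 : conj (w j) * u j = 0 := Complex.ext ((mul_eq_zero.mp h1).resolve_left ha) h2
  have h5 : u j = 0 := (mul_eq_zero.mp h4).resolve_left (by simpa using hj)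
  ext i
  by_cases hi : i = j
  · rw [hi, h5]; rfl
  · exact hu i hi

lemma chord_nondeg {θ : ℝ} (hθ : Irrational θ) {s : ι → ι} {β : ι → ℤ}
    (hinj : ∀ i j, s j ≠ j → β i = β j → i = j) (hpos : ∀ i, 0 < 1 + (β i : ℝ) * θ)
    {w u : ι → ℂ} (hw : w ∈ link s fun i => 1 + (β i : ℝ) * θ) (h0 : cj w = w) {T : ℝ}
    (hT : 0 < T) (h1 : cj (flow (fun i => 1 + (β i : ℝ) * θ) T w) =
      flow (fun i => 1 + (β i : ℝ) * θ) T w) (hu0 : cj u = u)
    (hu1 : cj (flow (fun i => 1 + (β i : ℝ) * θ) T u) = flow (fun i => 1 + (β i : ℝ) * θ) T u)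
    (htan : bil s (fun i => 1 + (β i : ℝ) * θ) w u = 0) : u = 0 := by
  obtain ⟨j, hj, hs⟩ := support_of_chord' hθ hinj hpos hw h0 hT h1
  have hwj : w j ≠ 0 := by
    obtain ⟨k, hk⟩ := exists_ne_zero hw
    by_cases h : k = j
    · rwa [h] at hk
    · exact absurd (hs k h) hk
  have hsj : Real.sin ((1 + (β j : ℝ) * θ) * T) = 0 :=
    sin_eq_zero_of_real hwj (congrFun h0 j) (congrFun h1 j)
  refine eq_zero_of_axis (s := s) (a := fun i => 1 + (β i : ℝ) * θ) (hpos j).ne' hwj
    (fun i hi => ?_) (by rw [htan]; rfl) ?_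
  · by_contra hui
    have hsi : Real.sin ((1 + (β i : ℝ) * θ) * T) = 0 :=
      sin_eq_zero_of_real hui (congrFun hu0 i) (congrFun hu1 i)
    exact hi (hinj i j hj (int_eq_of_sin hθ hT (hpos i) hsi hsj))
  · have e1 : (w j).im = 0 := conj_eq_iff_im.mp (congrFun h0 j)
    have e2 : (u j).im = 0 := conj_eq_iff_im.mp (congrFun hu0 j)
    simp [e1, e2]

lemma two_by_two {x y u v : ℂ} (hxy : x ≠ 0 ∨ y ≠ 0) (h0 : x * x + y * y = 0)
    (h1 : x * u + y * v = 0) (h2 : conj x * u + conj y * v = 0) : u = 0 ∧ v = 0 := by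
  have h3 : (y - I * x) * (y + I * x) = 0 := by
    have : I * I = -1 := I_mul_I
    linear_combination h0 - x * x * this
  have hx : x ≠ 0 := by
    rintro rfl
    rcases hxy with h | h
    · exact h rfl
    · apply h
      simpa using h0
  have hcx : conj x ≠ 0 := by simpa using hx
  have hII : I * I = -1 := I_mul_I
  rcases mul_eq_zero.mp h3 with h | h
  · have hy : y = I * x := by linear_combination h
    subst hy
    simp only [map_mul, conj_I] at h2
    have e1 : u + I * v = 0 := by
      apply mul_left_cancel₀ hx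
      linear_combination h1
    have e2 : u - I * v = 0 := by
      apply mul_left_cancel₀ hcx
      linear_combination h2
    refine ⟨by linear_combination (1 / 2 : ℂ) * e1 + (1 / 2 : ℂ) * e2, ?_⟩
    linear_combination (-I / 2 : ℂ) * e1 + (I / 2 : ℂ) * e2 + v * hII
  · have hy : y = -(I * x) := by linear_combination h
    subst hy
    simp only [map_mul, map_neg, conj_I] at h2
    have e1 : u - I * v = 0 := by
      apply mul_left_cancel₀ hx
      linear_combination h1
    have e2 : u + I * v = 0 := by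
      apply mul_left_cancel₀ hcx
      linear_combination h2
    refine ⟨by linear_combination (1 / 2 : ℂ) * e1 + (1 / 2 : ℂ) * e2, ?_⟩
    linear_combination (-I / 2 : ℂ) * e2 + (I / 2 : ℂ) * e1 + v * hII

lemma orbit_nondeg {θ : ℝ} (hθ : Irrational θ) {s : ι → ι} {β : ι → ℤ}
    (hβ : ∀ i, β (s i) = -β i) (hinj : ∀ i j, s j ≠ j → β i = β j → i = j)
    (hpos : ∀ i, 0 < 1 + (β i : ℝ) * θ) {k l : ι} (hkl : k ≠ l) (hk : s k = k) (hl : s l = l)
    (hfix : ∀ i, s i = i → i = k ∨ i = l)
    {w u : ι → ℂ} (hw : w ∈ link s fun i => 1 + (β i : ℝ) * θ) {T : ℝ} (hT : 0 < T)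
    (h1 : flow (fun i => 1 + (β i : ℝ) * θ) T w = w)
    (hu1 : flow (fun i => 1 + (β i : ℝ) * θ) T u = u)
    (htan : bil s (fun i => 1 + (β i : ℝ) * θ) w u = 0) (hker : liou w u = 0) : u = 0 := by
  have hsw : ∀ i, w i ≠ 0 → Real.sin ((1 + (β i : ℝ) * θ) * T) = 0 := fun i hi =>
    sin_eq_zero_of_fixed h1 hi
  have hsu : ∀ i, u i ≠ 0 → Real.sin ((1 + (β i : ℝ) * θ) * T) = 0 := fun i hi =>
    sin_eq_zero_of_fixed hu1 hi
  have hb0 : ∀ i, s i = i → β i = 0 := fun i hi => by
    have := hβ i
    rw [hi] at this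
    omega
  by_cases hex : ∃ j, s j ≠ j ∧ w j ≠ 0
  · obtain ⟨j, hj, hwj⟩ := hex
    have hu : ∀ i ≠ j, u i = 0 := fun i hi => by
      by_contra hui
      exact hi (hinj i j hj (int_eq_of_sin hθ hT (hpos i) (hsu i hui) (hsw j hwj)))
    refine eq_zero_of_axis (s := s) (a := fun i => 1 + (β i : ℝ) * θ) (hpos j).ne' hwj hu
      (by rw [htan]; rfl) ?_
    rw [liou_apply, Finset.sum_eq_single j] at hker
    · exact hker
    · intro i _ hi
      simp [hu i hi]
    · simp
  · push Not at hex
    obtain ⟨j, hwj⟩ := exists_ne_zero hw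
    have hj : s j = j := by
      by_contra h
      exact hwj (hex j h)
    have hu : ∀ i, s i ≠ i → u i = 0 := fun i hi => by
      by_contra hui
      have := hinj j i hi (int_eq_of_sin hθ hT (hpos j) (hsw j hwj) (hsu i hui))
      rw [← this] at hi
      exact hi hj
    have hout : ∀ i, i ≠ k ∧ i ≠ l → s i ≠ i := fun i hi h => by
      rcases hfix i h with h' | h'
      · exact hi.1 h'
      · exact hi.2 h'
    have e0 : w k * w k + w l * w l = 0 := by
      have hq : ∑ i, w (s i) * w i = 0 := congrArg Prod.fst hw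
      rw [Fintype.sum_eq_add k l hkl (fun i hi => by rw [hex i (hout i hi), mul_zero]), hk,
        hl] at hq
      exact hq
    have e1 : w k * u k + w l * u l = 0 := by
      have hq : ∑ i, w (s i) * u i = 0 := congrArg Prod.fst htan
      rw [Fintype.sum_eq_add k l hkl (fun i hi => by rw [hu i (hout i hi), mul_zero]), hk,
        hl] at hq
      exact hq
    have e2 : conj (w k) * u k + conj (w l) * u l = 0 := by
      apply Complex.ext
      · have hq : ∑ i, (1 + (β i : ℝ) * θ) * (conj (w i) * u i).re = 0 := congrArg Prod.snd htan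
        rw [Fintype.sum_eq_add k l hkl (fun i hi => by simp [hu i (hout i hi)]), hb0 k hk,
          hb0 l hl] at hq
        rw [add_re, zero_re]
        simpa using hq
      · rw [liou_apply, Fintype.sum_eq_add k l hkl (fun i hi => by simp [hu i (hout i hi)])]
          at hker
        rw [add_im, zero_im]
        exact hker
    have e3 : w k ≠ 0 ∨ w l ≠ 0 := by
      rcases hfix j hj with h | h
      · exact Or.inl (h ▸ hwj)
      · exact Or.inr (h ▸ hwj)
    obtain ⟨h2, h3⟩ := two_by_two e3 e0 e1 e2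
    ext i
    by_cases hi : s i = i
    · rcases hfix i hi with h | h
      · rw [h, h2]; rfl
      · rw [h, h3]; rfl
    · exact hu i hi

end Pool.Agent.Lib.MP_8a71fe_gt.ND
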