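import Pool.Agent.Lib.MP_8a71fe_gt.ND.Defs
import Pool.Agent.Lib.MP_8a71fe_gt.ND.Lin

/-!
The link of a quadric cone whose real form has two definite directions besides its hyperbolic
planes: all closed Reeb orbits and all Reeb chords are non-degenerate.
-/

open scoped Manifold ContDiff Topology
open Set Function

namespace Pool.Agent.Lib.MP_8a71fe_gt.ND

/-- The linear flow on the link. -/
noncomputable def flowLink {ι : Type} [Fintype ι] {s : ι → ι} {a : ι → ℝ}
    (ha : ∀ i, a i + a (s i) = 2) (t : ℝ) (x : link s a) : link s a :=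
  ⟨flow a t x.1, flow_mem_link ha x.2 t⟩

theorem exists_nondeg {ι : Type} [Fintype ι] [DecidableEq ι] {s : ι → ι}
    (hsinv : Involutive s) {β : ι → ℤ} (hβ : ∀ i, β (s i) = -β i) {θ : ℝ} (hθ : Irrational θ)
    (hhalf : ∀ i, 1 / 2 ≤ 1 + (β i : ℝ) * θ)
    (hbinj : ∀ i j, s j ≠ j → β i = β j → i = j) {p : ι} (hsp : s p ≠ p)
    {k l : ι} (hkl : k ≠ l) (hk : s k = k) (hl : s l = l) (hfix : ∀ i, s i = i → i = k ∨ i = l)
    (hconn : IsConnected (link s fun i => 1 + (β i : ℝ) * θ)) (N : ℕ)
    (hN : {j | s j ≠ j}.encard = N)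
    (hreal : 4 ≤ N → IsConnected ((link s fun i => 1 + (β i : ℝ) * θ) ∩
      {w | ∀ i, w i ∈ {z : ℂ | z.im = 0}}))
    (m : ℕ) (hm : 2 * Fintype.card ι = m + 3) :
    ExistsNondegenerate (EuclideanSpace ℝ (Fin m)) N := by
  set a : ι → ℝ := fun i => 1 + (β i : ℝ) * θ with ha
  have hadd : ∀ i, a i + a (s i) = 2 := fun i => by
    simp only [ha, hβ i]
    push_cast
    ring
  have hpos : ∀ i, 0 < a i := fun i => by
    have := hhalf i
    simp only [ha]
    linarith
  have hfd : ∀ w, fderiv ℝ (defMap s a) w = (2 : ℝ) • bil s a w := fun w =>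
    (hasFDerivAt_defMap hsinv a w).fderiv
  obtain ⟨cs, hM, hval, hL⟩ := exists_levelSet_manifold (defMap s a) (contDiff_defMap s a)
    (link s a) (mem_link_iff s a) (by
      intro x hx z
      obtain ⟨u, hu⟩ := bil_surjective hsinv a hx ((2 : ℝ)⁻¹ • z)
      refine ⟨u, ?_⟩
      rw [hfd, smul_apply, hu, smul_smul]
      simp) m (by
      simp only [Module.finrank_pi_fintype, Complex.finrank_real_complex, Finset.sum_const,
        Finset.card_univ, smul_eq_mul, Module.finrank_prod, Module.finrank_self]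
      omega)
  choose L hL1 hL2 using hL
  have hL' : ∀ x : link s a, ∃ L : (ι → ℂ) →L[ℝ] EuclideanSpace ℝ (Fin m),
      ∀ y : link s a, extChartAt (𝓡 m) x y = L (y : ι → ℂ) := fun x => ⟨L x, hL1 x⟩
  have hlink : ∀ x : link s a, bil s a x.1 x.1 = (0, 1) := fun x => x.2
  -- the tangent space is the kernel
  have htan : ∀ (x : link s a) (v : TangentSpace (𝓡 m) x),
      bil s a x.1 (dmap m Subtype.val x v) = 0 := by
    intro x v
    have := fderiv_dmap_eq_zero hval x (hasFDerivAt_defMap hsinv a x.1)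
      (fun y => (mem_link_iff s a y.1).mp y.2) v
    rw [smul_apply] at this
    exact (smul_eq_zero.mp this).resolve_left (by norm_num)
  have hsurj : ∀ (x : link s a) (u : ι → ℂ), bil s a x.1 u = 0 →
      dmap m Subtype.val x (L x u) = u := by
    intro x u hu
    rw [← sub_eq_zero]
    apply hL2 x
    · rw [hfd, smul_apply, map_sub, htan x (L x u), hu]
      simp
    · rw [map_sub, linear_dmap hval x (hL1 x) (L x u)]
      exact sub_self _
  have hinj : ∀ (x : link s a) (v : TangentSpace (𝓡 m) x), dmap m Subtype.val x v = 0 →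
      v = 0 := by
    intro x v hv
    rw [← linear_dmap hval x (hL1 x) v, hv, map_zero]
    rfl
  let α : (x : link s a) → TangentSpace (𝓡 m) x →L[ℝ] ℝ := pullForm m liou Subtype.val
  let R : (x : link s a) → TangentSpace (𝓡 m) x := fun x => L x (rot a x.1)
  have hR : ∀ x, dmap m Subtype.val x (R x) = rot a x.1 := fun x =>
    hsurj x _ (bil_rot hsinv hadd (by rw [hlink]))
  have hα : ∀ x v, α x v = liou x.1 (dmap m Subtype.val x v) := fun x v => rfl
  have hdα : ∀ x v w, extD α x v w =
      2 * liou (dmap m Subtype.val x v) (dmap m Subtype.val x w) := by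
    intro x v w
    rw [extD_pullForm liou hval, liou_antisymm (dmap m Subtype.val x w)]
    ring
  have hαR : ∀ x, α x (R x) = 1 := by
    intro x
    rw [hα, hR, liou_antisymm, liou_rot_left s, hlink]
    simp
  let ρ := cjLink s a
  have hρval : Subtype.val ∘ ρ = cj ∘ Subtype.val := rfl
  have hρ : ContMDiff (𝓡 m) (𝓡 m) ∞ ρ := by
    apply contMDiff_of_comp hL'
    · exact (cj.continuous.comp continuous_subtype_val).subtype_mk _
    · rw [hρval]
      exact cj.contMDiff.comp hval
  have hρfix : ∀ x, ρ x = x ↔ cj x.1 = x.1 := fun x => Subtype.ext_iff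
  -- images of chords
  have himage : ∀ (c : ℝ → link s a) (T : ℝ), IsReebChord R ρ c T → ∀ j, s j ≠ j →
      (∀ i ≠ j, (c 0).1 i = 0) →
      doubledChord ρ c T '' Icc 0 (2 * T) = Subtype.val ⁻¹' circ a j := by
    rintro c T ⟨hT, hc, h0, h1⟩ j hj hsupp
    have hflow := eq_flow_of_ode a (γ := Subtype.val ∘ c) (T := T) (fun t ht => by
      have := hasDerivWithinAt_of_curve hval (hc t ht)
      rwa [hR] at this)
    simp only [comp_apply] at hflow
    rw [hρfix] at h0 h1
    rw [hflow T ⟨hT.le, le_rfl⟩] at h1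
    have hw : (c 0).1 ∈ circ a j := (mem_link_iff_of_support hj hsupp).mp (c 0).2
    have hd : ∀ t ∈ Icc 0 (2 * T), (doubledChord ρ c T t).1 = flow a t (c 0).1 := by
      intro t ht
      unfold doubledChord
      split_ifs with h
      · exact hflow t ⟨ht.1, h⟩
      · change cj (c (2 * T - t)).1 = _
        rw [hflow _ ⟨by linarith [ht.2], by linarith⟩]
        exact cj_flow_reflect hw h0 h1 t
    rw [← image_flow_eq_circ (hpos j) hw h0 hT h1]
    ext y
    simp only [mem_image, mem_preimage]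
    constructor
    · rintro ⟨t, ht, rfl⟩
      exact ⟨t, ht, (hd t ht).symm⟩
    · rintro ⟨t, ht, hy⟩
      exact ⟨t, ht, Subtype.ext ((hd t ht).trans hy)⟩
  have hexists : ∀ j, s j ≠ j → ∃ (c : ℝ → link s a) (T : ℝ), IsReebChord R ρ c T ∧
      ∀ i ≠ j, (c 0).1 i = 0 := by
    intro j hj
    obtain ⟨w, hw, h0, T, hT, h1⟩ := exists_chord (a := a) (hpos j)
    let c : ℝ → link s a := fun t => ⟨flow a t w,
      (mem_link_iff_of_support hj (flow_mem_circ hw t).1).mpr (flow_mem_circ hw t)⟩
    have hc0 : (c 0).1 = w := by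
      ext i
      simp [c, flow]
    have hcont : Continuous c := by
      apply Continuous.subtype_mk
      exact continuous_iff_continuousAt.mpr fun t => (hasDerivAt_flow a w t).continuousAt
    refine ⟨c, T, ⟨hT, ?_, ?_, ?_⟩, ?_⟩
    · intro t _
      apply curve_of_hasDerivWithinAt hval hL' hcont.continuousWithinAt
      rw [hR]
      exact (hasDerivAt_flow a w t).hasDerivWithinAt
    · rw [hρfix, hc0, h0]
    · rw [hρfix]
      exact h1
    · rw [hc0]
      exact hw.1
  have hsm := contMDiff_pullForm (liou (ι := ι)) hval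
  -- the flow
  let φ : ℝ → link s a → link s a := flowLink hadd
  have hφval : ∀ t, Subtype.val ∘ φ t = flowL a t ∘ Subtype.val := fun t => rfl
  have hφ : ∀ t, ContMDiff (𝓡 m) (𝓡 m) ∞ (φ t) := by
    intro t
    apply contMDiff_of_comp hL'
    · exact ((flowL a t).continuous.comp continuous_subtype_val).subtype_mk _
    · rw [hφval]
      exact (flowL a t).contMDiff.comp hval
  let G : TangentBundle (𝓡 m) (link s a) → ι → ℂ := fun q => dmap m Subtype.val q.proj q.snd
  have hGρ : ∀ q, G (diffMap (EuclideanSpace ℝ (Fin m)) ρ q) = cj (G q) := by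
    intro q
    change dmap m Subtype.val (ρ q.proj) (mfderiv (𝓡 m) (𝓡 m) ρ q.proj q.snd) = _
    rw [dmap_comp hval hρ, hρval, comp_dmap_eq hval q.proj cj.hasFDerivAt]
  have hGφ : ∀ t q, G (diffMap (EuclideanSpace ℝ (Fin m)) (φ t) q) = flow a t (G q) := by
    intro t q
    change dmap m Subtype.val (φ t q.proj) (mfderiv (𝓡 m) (𝓡 m) (φ t) q.proj q.snd) = _
    rw [dmap_comp hval (hφ t), hφval, comp_dmap_eq hval q.proj (flowL a t).hasFDerivAt]
    rfl
  refine ⟨link s a, inferInstance, cs, hM, inferInstance,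
    isCompact_iff_compactSpace.mp (isCompact_link s hhalf),
    isConnected_iff_connectedSpace.mp hconn, α, R, ρ, φ,
    ⟨hsm, fun x => ⟨?_, ?_⟩⟩, fun x => ⟨hαR x, ?_⟩, ⟨hρ, ?_, ?_⟩, ?_, ?_,
    ⟨hφ, fun x => ⟨Subtype.ext (flow_zero a x.1), ?_⟩⟩, ?_, ?_, ?_⟩
  · refine ⟨R x, ?_⟩
    change α x (R x) ≠ 0
    rw [hαR]
    exact one_ne_zero
  · intro v hv hw
    apply hinj x v
    apply liou_nondegenerate hsinv hadd (hlink x) (htan x v) hv
    intro u hu hu'
    have := hw (L x u) (by
      change liou x.1 (dmap m Subtype.val x (L x u)) = 0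
      rw [hsurj x u hu, hu'])
    have h2 := (hdα x v (L x u)).symm.trans this
    rw [hsurj x u hu] at h2
    linarith
  · intro w
    rw [hdα, hR, liou_rot_left s, htan]
    simp
  · intro x
    apply Subtype.ext
    ext i
    simp [ρ, cjLink]
  · intro x v
    unfold evalForm
    rw [hα, hα, dmap_comp hval hρ, hρval, comp_dmap_eq hval x cj.hasFDerivAt]
    exact liou_cj _ _
  · obtain ⟨c, T, hc, _⟩ := hexists p hsp
    exact ⟨c 0, hc.2.2.1⟩
  · intro h4
    have h1 := hreal h4
    have h2 : link s a ∩ {w | ∀ i, w i ∈ {z : ℂ | z.im = 0}} =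
        Subtype.val '' {x : link s a | ρ x = x} := by
      ext w
      simp only [mem_inter_iff, mem_ofPred_eq, mem_image, hρfix]
      constructor
      · rintro ⟨h3, h4⟩
        exact ⟨⟨w, h3⟩, funext fun i => Complex.conj_eq_iff_im.mpr (h4 i), rfl⟩
      · rintro ⟨x, hx, rfl⟩
        exact ⟨x.2, fun i => Complex.conj_eq_iff_im.mp (congrFun hx i)⟩
    rw [h2] at h1
    exact ⟨h1.1.of_image, Topology.IsInducing.subtypeVal.isPreconnected_image.mp h1.2⟩
  · have hcont : Continuous fun t => φ t x := by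
      apply Continuous.subtype_mk
      exact continuous_iff_continuousAt.mpr fun t => (hasDerivAt_flow a x.1 t).continuousAt
    rw [isMIntegralCurve_iff_isMIntegralCurveOn]
    intro t _
    apply curve_of_hasDerivWithinAt hval hL' hcont.continuousWithinAt
    rw [hR]
    exact (hasDerivAt_flow a x.1 t).hasDerivWithinAt
  · intro T hT q hq hfixq
    apply hinj q.proj q.snd
    have h1 : flow a T q.proj.1 = q.proj.1 :=
      congrArg (fun z : TangentBundle (𝓡 m) (link s a) => z.proj.1) hfixq
    have h2 : flow a T (G q) = G q := by rw [← hGφ, hfixq]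
    exact orbit_nondeg hθ hβ hbinj hpos hkl hk hl hfix q.proj.2 hT h1 h2 (htan _ _) hq
  · intro T hT q h0 h1
    apply hinj q.proj q.snd
    have e0 : cj q.proj.1 = q.proj.1 :=
      congrArg (fun z : TangentBundle (𝓡 m) (link s a) => z.proj.1) h0
    have e1 : cj (flow a T q.proj.1) = flow a T q.proj.1 :=
      congrArg (fun z : TangentBundle (𝓡 m) (link s a) => z.proj.1) h1
    have e2 : cj (G q) = G q := by rw [← hGρ, h0]
    have e3 : cj (flow a T (G q)) = flow a T (G q) := by rw [← hGφ, ← hGρ, h1]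
    exact chord_nondeg hθ hbinj hpos q.proj.2 e0 hT e1 e2 e3 (htan _ _)
  · have hset : symmetricOrbits R ρ =
        (fun j => (Subtype.val ⁻¹' circ a j : Set (link s a))) '' {j | s j ≠ j} := by
      ext S
      simp only [symmetricOrbits, mem_ofPred_eq, mem_image]
      constructor
      · rintro ⟨c, T, hc, rfl⟩
        have hflow := eq_flow_of_ode a (γ := Subtype.val ∘ c) (T := T) (fun t ht => by
          have := hasDerivWithinAt_of_curve hval (hc.2.1 t ht)
          rwa [hR] at this) T ⟨hc.1.le, le_rfl⟩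
        simp only [comp_apply] at hflow
        have h1 := (hρfix _).mp hc.2.2.2
        rw [hflow] at h1
        obtain ⟨j, hj, h⟩ :=
          support_of_chord' hθ hbinj hpos (c 0).2 ((hρfix _).mp hc.2.2.1) hc.1 h1
        exact ⟨j, hj, (himage c T hc j hj h).symm⟩
      · rintro ⟨j, hj, rfl⟩
        obtain ⟨c, T, hc, h⟩ := hexists j hj
        exact ⟨c, T, hc, (himage c T hc j hj h).symm⟩
    rw [hset, ← hN]
    apply InjOn.encard_image
    intro j hj k _ h
    by_contra hjk
    obtain ⟨c, T, hc, h0⟩ := hexists j hj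
    have h1 : (c 0).1 ∈ circ a j := (mem_link_iff_of_support hj h0).mp (c 0).2
    have h' : (Subtype.val ⁻¹' circ a j : Set (link s a)) = Subtype.val ⁻¹' circ a k := h
    have h2 : c 0 ∈ (Subtype.val ⁻¹' circ a k : Set (link s a)) := h' ▸ h1
    exact ne_zero_of_mem_circ h1 (h2.1 j hjk)

/-- The pairing of the coordinates: `q` hyperbolic planes and two squares. -/
def pairing (q : ℕ) : (Fin q × Bool) ⊕ Bool → (Fin q × Bool) ⊕ Bool :=
  Sum.map (fun x => (x.1, !x.2)) id

/-- The integer weights. -/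
def weight (q : ℕ) : (Fin q × Bool) ⊕ Bool → ℤ :=
  Sum.elim (fun x => if x.2 then ((x.1 : ℕ) : ℤ) + 1 else -(((x.1 : ℕ) : ℤ) + 1)) fun _ => 0

theorem exists_odd (q : ℕ) (hq : 1 ≤ q) (m : ℕ) (hm : 4 * q + 1 = m) :
    ExistsNondegenerate (EuclideanSpace ℝ (Fin m)) (2 * q) := by
  have hq0 : (0 : ℝ) < q := by exact_mod_cast hq
  have hθ : Irrational (√2 / ((4 * q : ℕ) : ℝ)) :=
    irrational_sqrt_two.div_natCast (by omega)
  have hs2 : √2 ≤ 3 / 2 := Real.sqrt_le_iff.mpr ⟨by norm_num, by norm_num⟩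
  have hθ0 : 0 ≤ √2 / ((4 * q : ℕ) : ℝ) := by positivity
  have hθ1 : (q : ℝ) * (√2 / ((4 * q : ℕ) : ℝ)) ≤ 1 / 2 := by
    have : (q : ℝ) * (√2 / ((4 * q : ℕ) : ℝ)) = √2 / 4 := by
      push_cast
      field_simp
    rw [this]
    linarith
  set θ := √2 / ((4 * q : ℕ) : ℝ) with hθdef
  have hinv : Involutive (pairing q) := by
    rintro (⟨i, b⟩ | j) <;> simp [pairing]
  have hhalf : ∀ i, 1 / 2 ≤ 1 + (weight q i : ℝ) * θ := by
    intro i
    have h1 : -(q : ℤ) ≤ weight q i := by
      rcases i with ⟨i, b⟩ | j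
      · have := i.2
        cases b <;> simp only [weight, Sum.elim_inl] <;> simp <;> omega
      · simp [weight]
    have h2 : -(q : ℝ) ≤ weight q i := by exact_mod_cast h1
    nlinarith
  have hpos : ∀ i, 0 < 1 + (weight q i : ℝ) * θ := fun i => by linarith [hhalf i]
  let p : (Fin q × Bool) ⊕ Bool := Sum.inl (⟨0, hq⟩, true)
  have hsp : pairing q p ≠ p := by simp [pairing, p]
  have htwo : ∀ A : Set ℂ, (1 : ℂ) ∈ A → (∀ (t : ℝ) (z : ℂ), z ∈ A → (t : ℂ) * z ∈ A) → 2 ≤ q →
      IsConnected ((link (pairing q) fun i => 1 + (weight q i : ℝ) * θ) ∩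
        {w | ∀ i, w i ∈ A}) := by
    intro A h1 h2 h3
    exact isConnected_linkIn hinv h1 h2 hsp (r := Sum.inl (⟨1, h3⟩, true)) (by simp [pairing])
      (by simp [p]) (by simp [p, pairing]) hpos
  refine exists_nondeg hinv (β := weight q) ?_ hθ hhalf ?_ hsp (k := Sum.inr true)
    (l := Sum.inr false) (by simp) rfl rfl ?_ ?_ (2 * q) ?_ ?_ m ?_
  · rintro (⟨i, b⟩ | j)
    · cases b <;> simp [pairing, weight]
    · simp [pairing, weight]
  · rintro (⟨i, b⟩ | i) (⟨j, c⟩ | j) hj h
    · cases b <;> cases c <;> simp only [weight, Sum.elim_inl] at h <;> simp at h ⊢ <;> omega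
    · simp [pairing] at hj
    · cases c <;> simp only [weight, Sum.elim_inl, Sum.elim_inr] at h <;> simp at h <;> omega
    · simp [pairing] at hj
  · rintro (⟨i, b⟩ | j) h
    · simp [pairing] at h
    · cases j <;> simp
  · by_cases h2 : 2 ≤ q
    · simpa using htwo univ (mem_univ _) (fun _ _ _ => mem_univ _) h2
    · obtain rfl : q = 1 := by omega
      have e : pairing 1 = ⇑(Equiv.swap p (pairing 1 p)) := by
        funext i
        revert i
        decide +revert
      rw [e]
      exact isConnected_link hsp.symm (r := Sum.inr true) (by simp [p]) (by simp [p, pairing]) hpos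
  · have : {j | pairing q j ≠ j} = Sum.inl '' univ := by
      ext j
      rcases j with ⟨i, b⟩ | j <;> simp [pairing]
    rw [this, Sum.inl_injective.injOn.encard_image]
    simp [mul_comm]
  · intro h4
    exact htwo {z : ℂ | z.im = 0} (by simp) (fun t z hz => by simpa using Or.inr hz) (by omega)
  · simp only [Fintype.card_sum, Fintype.card_prod, Fintype.card_fin, Fintype.card_bool]
    omega

end Pool.Agent.Lib.MP_8a71fe_gt.ND
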